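import Mathlib
import Pool.Agent.H16.Tut

set_option autoImplicit false

namespace Pool.Agent.Results.MP_f03b0a_co.Q2No

open H16.Tut

theorem result : ∃ G H : Multiset (Sym2 (Fin 6)), (under G).Connected ∧ (under H).Connected ∧
    tutte G = tutte H ∧ ThreeConn G ∧ ¬ ThreeConn H :=
  H16.Tut.main

end Pool.Agent.Results.MP_f03b0a_co.Q2No
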